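import Pool.Agent.Y126.GSP.Main
import Pool.Agent.Y126.Toric.One
import Pool.Agent.Y126.JP.Glob2

/-!
# Points of `𝒜_g` with a place of bad reduction, or a Frobenius element with few coincidences between
the ratios of its eigenvalues, are not `ℓ`-Galois special

Let `x` be a point of `𝒜_g` over a number field (or a finitely generated field) with the absolute
Galois group `Γ`, let `K` be an algebraic closure of `ℚ_ℓ` and `V` the dual of `H^1(A_x)` with
coefficients in `K` (the rational Tate module), with the Galois representation `τ`; `χ` is the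
cyclotomic character.  (The groups `G_(ℓ,x)` of `H^1` and of its dual are the same.)

Hypotheses that hold for all abelian varieties: `Polarized` (the Weil pairing), `TensorSemisimple`
and `PotentiallySemisimple` (Faltings) and `HasHomothety` (Bogomolov).  The other hypotheses, for the
strongly irreducible subspaces `U` of `V`, `dim U ≥ 2`; if `End(A_x) = ℤ` geometrically there is only
one, `U = V`.  One of the following holds:

* `HasQuadraticUnipotents`.  There is a place of bad semistable reduction of any toric rank, with a
  generator `γ` of the pro-`ℓ` part of an inertia group, such that the defects of `γ` (the toric rank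
  of `U`, and the multiplicities of the nonzero eigenvalues of `(γ - 1) (γ' - 1)`, for the
  conjugates `γ'` of `γ` or the elements `γ'` for other places) have no common prime factor, or
  `U` is symplectic and one is odd or two.
* `HasBadPlaceWithFrobenius`.  `U` is symplectic and there is a place of bad semistable reduction of any
  toric rank such that some eigenvalue of weight one of the Frobenius has small multiplicity (or the
  toric rank is small) and some eigenvalue has odd multiplicity.
* `HasFewRatios`.  `U` is symplectic and there is a Frobenius element (at a place of good reduction) with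
  few coincidences between the ratios of its eigenvalues; for example if the slopes are `0`, `1 / 2` and
  `1`, the Frobenius is a scalar on the part of slope `1 / 2`, some unit eigenvalue is simple and
  `dim U ≥ 10`.

Let `Y` be a closed irreducible subvariety of `𝒜_g` through `x` such that over a finite cover of `Y` all
endomorphisms of `A_x` extend to the abelian scheme (the determinants of the representations `U` are
then constant in the family: they are given by algebraic Hecke characters; this is the second part of
`KeepsEndomorphisms`, and it is empty if there are no Weil families, for instance if all `U` are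
self-dual).  The largest such `Y` is given by the Shimura variety of PEL type of `A_x`; it has positive
dimension if some `U` is not a line.  Then `G_(ℓ,Y) = G_(ℓ,x)`; so if `x` is `ℓ`-Galois special then
all these `Y` are points: a point of this kind, not a CM point, is not `ℓ`-Galois special, as the
conjecture predicts.
-/

namespace Pool.Agent.Results.MP_09799c_ag.BadPlacesAndRatios

open Module Pool.Agent.Y130.GS Pool.Agent.H204R3.GP Pool.Agent.Y126.Notions Pool.Agent.Y126.GSP

noncomputable section

variable {K X Γ : Type} [Field K] [AddCommGroup X] [Module K X] [Group Γ]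

/-- There is an element `γ` of the group with `(γ - 1) ^ 2 = 0` such that the defects of `γ` on `U`
have no common prime factor, or `U` is symplectic and one of the defects is two, or one is odd and the
weak Hodge elements generate. -/
def HasQuadraticUnipotents (R : Representation K Γ X) (χ : Γ →* K) (U : Submodule K X) : Prop :=
  ∃ γ : Γ, (R γ - 1) * (R γ - 1) = 0 ∧
    ((∀ p : ℕ, p.Prime → ∃ d, Pool.Agent.Y126.Toric.IsDefect R U γ d ∧ ¬ p ∣ d) ∨
      (IsSymplectic R χ U ∧ ∃ d, Pool.Agent.Y126.Toric.IsDefect R U γ d ∧
        (d = 2 ∨ (Odd d ∧ WeakHodgeGenerate R χ))))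

/-- The element `γ` is a square-zero unipotent element, `F` is a diagonalizable element that maps
`γ - 1` to `χ F` times itself under conjugation, and the eigenvalues of `F` are: `1`; elements `a` of
weight `w a = 1 / 2`; and `χ F`, with eigenvectors in the image of `γ - 1`.  Here the weight `w` is a
homomorphism from the multiplicative group of `K` to the rational numbers with `w (χ F) = 1`. -/
def IsMonodromyPair (R : Representation K Γ X) (χ : Γ →* K) (w : Additive Kˣ →+ ℚ) (γ F : Γ) :
    Prop :=
  (R γ - 1) * (R γ - 1) = 0 ∧ R F * (R γ - 1) = χ F • ((R γ - 1) * R F) ∧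
    ∃ (n : ℕ) (b : Basis (Fin n) K X) (a : Fin n → Kˣ) (c : Kˣ),
      (c : K) = χ F ∧ w (Additive.ofMul c) = 1 ∧ (∀ i, R F (b i) = (a i : K) • b i) ∧
      ∀ i, a i = 1 ∨ w (Additive.ofMul (a i)) = 1 / 2 ∨
        (a i = c ∧ b i ∈ LinearMap.range (R γ - 1))

/-- The algebraic multiplicity of the eigenvalue `a` of `F` on the subspace `U`. -/
def multOn (R : Representation K Γ X) (F : Γ) (U : Submodule K X) (a : K) : ℕ :=
  finrank K (Module.End.maxGenEigenspace (R F) a ⊓ U : Submodule K X)

/-- There are `γ` and `F` as in `IsMonodromyPair`, where `F` maps `U` to `U` and `γ` is non-trivial on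
`U`, such that some eigenvalue of `F` on `U` has odd multiplicity and either the rank of `γ - 1` on `U`
is smaller than a fourth of the dimension of `U` or some eigenvalue of weight `1 / 2` of `F` on `U` has
multiplicity smaller than an eighth of it. -/
def HasBadPlaceWithFrobenius (R : Representation K Γ X) (χ : Γ →* K) (U : Submodule K X) : Prop :=
  ∃ (w : Additive Kˣ →+ ℚ) (γ F : Γ), IsMonodromyPair R χ w γ F ∧ (∀ u ∈ U, R F u ∈ U) ∧
    U.map (R γ - 1) ≠ ⊥ ∧ (∃ a : K, Odd (multOn R F U a)) ∧
    (4 * finrank K (U.map (R γ - 1)) < finrank K U ∨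
      ∃ a : Kˣ, w (Additive.ofMul a) = 1 / 2 ∧ 0 < multOn R F U a ∧
        8 * multOn R F U a < finrank K U)

/-- The multiplicity of `c` in the family `a`. -/
def mult {n : ℕ} (a : Fin n → Kˣ) (c : Kˣ) : ℕ := Nat.card {i // a i = c}

/-- The number of times that `ρ` occurs as a ratio of members of the family `a`: the sum, over all
`c`, of the minimum of the multiplicities of `c` and of `c ρ`. -/
def coincidences {n : ℕ} (a : Fin n → Kˣ) (ρ : Kˣ) : ℕ := ∑ᶠ c : Kˣ, min (mult a c) (mult a (c * ρ))

/-- For every `k`, the subgroup `H` is generated by the ratios `a j / a k` that it contains. -/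
def IsSaturated {n : ℕ} (a : Fin n → Kˣ) (H : Subgroup Kˣ) : Prop :=
  ∀ k, Subgroup.closure {x | x ∈ H ∧ ∃ j, x = a j / a k} = H

/-- Let `a i` be the eigenvalues of an element `F` on `U`, with an index `i₀`, and let `W` be a
subgroup of the multiplicative group of `K`.  Each ratio `a j / a i₀` that is not in `W` occurs at most
`r` times as a ratio of eigenvalues, where `4 r < dim U`, and either `dim U` is not divisible by `4`
and some ratio `a j / a i₀` is not in `W`, or `r ^ 2 < dim U` and for every saturated subgroup `H` of
`W` some coset of `H` contains an odd number of eigenvalues. -/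
def HasFewRatios (R : Representation K Γ X) (U : Submodule K X) : Prop :=
  ∃ (F : Γ) (W : Subgroup Kˣ) (n : ℕ) (b : Basis (Fin n) K U) (a : Fin n → Kˣ) (i₀ : Fin n) (r : ℕ),
    (∀ i, R F (b i : X) = (a i : K) • (b i : X)) ∧
    (∀ j, a j / a i₀ ∉ W → coincidences a (a j / a i₀) ≤ r) ∧ 4 * r < n ∧
    ((¬4 ∣ n ∧ ∃ j, a j / a i₀ ∉ W) ∨
      (r ^ 2 < n ∧ ∀ H ≤ W, IsSaturated a H → ∃ t : Kˣ, Odd (Nat.card {i // a i / t ∈ H})))

/-- One of the three conditions for the strongly irreducible subspace `U`. -/
def HasGoodElements (R : Representation K Γ X) (χ : Γ →* K) (U : Submodule K X) : Prop :=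
  HasQuadraticUnipotents R χ U ∨ (IsSymplectic R χ U ∧ WeakHodgeGenerate R χ ∧
    (HasBadPlaceWithFrobenius R χ U ∨ HasFewRatios R U))

/-- Over a finite cover of the subvariety `Y` all endomorphisms of `A_x` extend to the generic abelian
variety (in the form: the bilinear Tate forms remain Tate forms), and for the Weil families `L` (of
strongly irreducible subspaces, never dual to each other, such that the product of the determinants is
a power of `χ`) the product of the determinants remains a power of the cyclotomic character. -/
def KeepsEndomorphisms {τ : Representation K Γ X} {χ : Γ →* K} (Y : Subvariety τ χ) : Prop :=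
  (∀ β : X →ₗ[K] X →ₗ[K] K, IsTate2 τ χ β → IsTate2 Y.rep Y.mult β) ∧
    ∀ (Q : Type) [Fintype Q] (L : Q → Submodule K X), IsWeilFamily τ χ L →
      DeterminantIsPower Y.rep Y.mult L

/-- The groups of `x` and of the subvarieties through `x` that keep the endomorphisms are the same, so
that if `x` is `ℓ`-Galois special then all these subvarieties have dimension zero. -/
theorem result {K : Type} [Field K] [CharZero K] [IsAlgClosed K]
    {V : Type} [AddCommGroup V] [Module K V] [FiniteDimensional K V]
    {Γ : Type} [Group Γ] (τ : Representation K Γ V) (χ : Γ →* K)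
    (hpol : Polarized τ χ) (htensor : TensorSemisimple τ) (hsemisimple : PotentiallySemisimple τ)
    (hhomothety : HasHomothety τ χ)
    (hgood : ∀ U, StronglyIrreducible τ U → 2 ≤ finrank K U → HasGoodElements τ χ U)
    (hlines : NoSelfDualLines τ χ) (htwists : NoProperTwists τ χ)
    -- the closed irreducible subvarieties through `x`
    (𝒴 : Set (Subvariety τ χ)) :
    (∀ Y ∈ 𝒴, KeepsEndomorphisms Y → monodromy Y.rep = monodromy τ) ∧
    (IsGaloisSpecial τ χ 𝒴 → ∀ Y ∈ 𝒴, KeepsEndomorphisms Y → Y.dim = 0) := by
  obtain ⟨ω, hnd, hω⟩ := hpol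
  have hproj := hasProj_of hsemisimple
  have h1 : ∀ U, StronglyIrreducible τ U → 2 ≤ finrank K U →
      ∃ e ∈ Pool.Agent.H204R3.SP.lieT τ χ, e * e = 0 ∧ finrank K (U.map e) = 1 := by
    intro U hU h2
    have hhodge : WeakHodgeGenerate τ χ → Pool.Agent.W528.Odd.WeakHodgeGenerate τ χ := by
      intro h P hP
      exact h P fun x hx => hP x hx.2 hx.1
    rcases hgood U hU h2 with ⟨γ, hγ, h | ⟨halt, d, hd, h⟩⟩ | ⟨hs, hh, ⟨w, γ, F,
      ⟨hγ, hFN, n, b, a, c, hc, hwc, hF, ha⟩, hFU, hN0, hodd, hsmall⟩ |
      ⟨F, W, n, b, a, i₀, r, hF, hr, hr4, hodd⟩⟩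
    · exact Pool.Agent.Y126.Toric.one_of_gcd ω hnd hω hproj hU hγ h
    · exact Pool.Agent.Y126.Toric.one_of_alt ω hnd hω hproj hU halt hγ hd
        (h.imp_right fun h => ⟨h.1, hhodge h.2⟩)
    · refine Pool.Agent.Y126.JP.one_of_frob ω hnd hω hproj hU hs (hhodge hh) hγ hN0 hFN hFU hc hwc
        hF ha hodd ?_
      rcases hsmall with h | ⟨t, ht, h1, h2⟩
      · left
        intro d hd
        have h3 := hd _ (Or.inl rfl)
        refine lt_of_le_of_lt (Nat.mul_le_mul_left 4 (Nat.le_of_dvd ?_ h3)) h
        rw [Nat.pos_iff_ne_zero, ne_eq, Submodule.finrank_eq_zero]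
        exact hN0
      · right
        exact ⟨t, ht, fun h3 => h1.ne' (Submodule.finrank_eq_zero.2 h3), h2⟩
    · refine Pool.Agent.Y126.JP.one_of_grading ω hnd hω hproj hU hs (hhodge hh) hF (W := W)
        (i₀ := i₀) (r := r) hr hr4 ?_
      rcases hodd with h | ⟨hrr, hodd⟩
      · exact Or.inl h
      · exact Or.inr ⟨by rw [← sq]; exact hrr, hodd⟩
  have h2 : ∀ Y : Subvariety τ χ, KeepsEndomorphisms Y → monodromy Y.rep = monodromy τ :=
    fun Y hY => monodromy_eq ω hnd hω htensor hproj hhomothety h1 hlines htwists Y hY.1 hY.2
  refine ⟨fun Y _ hY => h2 Y hY, fun hx Y hY hYf => ?_⟩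
  by_contra h0
  exact hx Y hY (Nat.pos_of_ne_zero h0) (h2 Y hYf)

end

end Pool.Agent.Results.MP_09799c_ag.BadPlacesAndRatios
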