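import Pool.Agent.Y128.CV.Spc
import Pool.Agent.Y574.CY.Eig
import Pool.Agent.Y907.CY.REF

/-!
# Points of the moduli space given by Jacobians of cyclic coverings are not `ℓ`-Galois special

Let `x` be a point of `𝒜_g` over a finitely generated subfield `F` of `ℂ` (for Q1 a number field) such
that the abelian variety `A_x` is isogenous to a product of powers of the primitive parts `A_c` of the
Jacobians of curves `X_c : y ^ n = ∏ (x - a_t) ^ (m_t)` over `F`, of any degrees `n = n_c ≥ 3`, with any
number `r = r_c` of branch points except four, and any exponents `m_t`, nonzero modulo `n`, with sum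
zero. The hypotheses `CyclicCoverings` are explained in MP_938ce2_ag.CyclicCoverings: if `r_c ≥ 5` then the
endomorphism algebra of `A_c` over the closure is generated by the automorphism `σ_c`, and there is one
place of `F` where exactly two of the branch points of `X_c` meet, with the sum of their two exponents
prime to `n`, and the other curves have good reduction; there is no condition if `r_c = 3`.

Let `Y` be a closed irreducible subvariety of `𝒜_g` through `x` with `G_Y = G_x` (for example the
smallest special subvariety which contains `x`), `Γ'` its arithmetic fundamental group, `s : Γ → Γ'` the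
homomorphism given by the point `x`, where `Γ` is the Galois group of `F`, and `ρ c` the
representation of `Γ'` on `V_c` (the Tate module of `A_c`, over `k = ℚ_ℓ`), so that the composition
with `s` is the representation of `Γ`; `per` is the inclusion of the rational homology `⊕ W_c` in the
tangent space and `j c : W_c → V_c` the comparison map.

Theorem: the representation of `Γ'` and its restriction to `Γ` have the same Tate classes in all tensor
powers. As both groups are reductive, `G_(ℓ,Y) = G_(ℓ,x)`. If one `r_c` is at least five then `x` is
not a CM point, the smallest special subvariety through `x` has positive dimension, and so `x` is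
not `ℓ`-Galois special, for any `ℓ`: Q1 holds for all such points `x` of `𝒜_g`. All
dimensions, signatures and numbers of factors are allowed, `G_x` need not be simple modulo
its centre, and `x` may be defined over a number field.

Known theorems which are hypotheses: `AbelianVarietyTheorems` (Faltings; Deligne; the theorem on the
centre of the Mumford-Tate group) for `A_x`, and `HodgeClassesExtend`: the Hodge classes of `A_x` (its
powers) are Tate classes on `Y`, because they are flat Hodge classes on `Y` by `G_Y = G_x` and so absolute
Hodge classes by the theorem of Deligne.

Proof: the Mumford-Tate conjecture for `A_x`, as in MP_6c781a_ag.CyclicCoverings.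

The parts `t_EIG`, `t_REF` and `t_NUM` are by helper574, helper907 and helper884, the transition to the
Mumford-Tate group (`mumfordTate_of_det`) by helper118.
-/

namespace Pool.Agent.Results.MP_09799c_ag.CyclicCoverings

open Pool.Agent.Y128.CV

/-- Points given by products of Jacobians of cyclic coverings: the `ℓ`-adic monodromy does not grow on
the subvarieties with the same Mumford-Tate group (`k` is the field of the `ℓ`-adic numbers, `Γ` the
Galois group, `Γ'` the arithmetic fundamental group of the subvariety). -/
theorem result {k Γ Γ' ι : Type} [Field k] [CharZero k] [Group Γ] [Group Γ'] [Fintype ι]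
    [DecidableEq ι] {V : ι → Type} [∀ c, AddCommGroup (V c)] [∀ c, Module k (V c)]
    [∀ c, FiniteDimensional k (V c)] (C : ι → Covering) (s : Γ →* Γ')
    (ρ : ∀ c, Representation k Γ' (V c)) (χ : Γ' →* k) (ω : ∀ c, V c →ₗ[k] V c →ₗ[k] k)
    (σ : ∀ c, Module.End k (V c))
    (h : CyclicCoverings C (fun c => MonoidHom.comp (ρ c) s) (χ.comp s) ω σ)
    {W : ι → Type} [∀ c, AddCommGroup (W c)] [∀ c, Module ℚ (W c)]
    {T : Type} [AddCommGroup T] [Module ℂ T] (per : (∀ c, W c) →+ T) (j : ∀ c, W c →+ V c)
    (hA : AbelianVarietyTheorems per (comparison j) (rep fun c => MonoidHom.comp (ρ c) s)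
      (chi (χ.comp s)))
    (hY : HodgeClassesExtend per (comparison j) (rep ρ) (chi χ)) :
    SameTateClasses (rep ρ) (chi χ) (rep fun c => MonoidHom.comp (ρ c) s) (chi (χ.comp s)) :=
  main_spc Pool.Agent.Y574.CY.t_EIG (Pool.Agent.Y907.CY.t_REF Pool.Agent.Y574.CY.t_EIG)
    Nm.t_NUM s h hA hY

end Pool.Agent.Results.MP_09799c_ag.CyclicCoverings
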