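import Pool.Agent.Y130.GS.Main

/-!
# Points of `𝒜_g` with a factor with isolated Frobenius eigenvalues are not `ℓ`-Galois special

Let `x` be a point of `𝒜_g` over a number field (or a finitely generated field) `k` with the absolute
Galois group `Γ`, and let the abelian variety `A_x` be isogenous to `B × D`.  Let `K` be an algebraic
closure of `ℚ_ℓ`; `V` and `E` are the spaces `H^1(B)` and `H^1(D)` with coefficients in `K`, with the
Galois representations `ρ` and `σ`, and `χ` is the (inverse of the) cyclotomic character.  The abelian
variety `B` can have arbitrary endomorphisms, but no factors of type III.  After a finite extension of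
`k` the representation `V` is a direct summand of a sum of copies of a representation `T` which is the
sum of pairwise non-isomorphic strongly irreducible representations `U c` (Faltings), with an
alternating form `B` with the multiplier `χ` that pairs `U c` with `U (star c)`; for instance `T` is
`V` and is irreducible if the geometric endomorphism ring of `B` is `ℤ`.  Suppose that each `U c` (if
it is not a line) contains an eigenvector of some Frobenius element with an ISOLATED eigenvalue `a`:
`a` is a simple eigenvalue on `T`; `a δ = β γ`, for Frobenius eigenvalues `β`, `γ`, `δ` on `T`, holds
(up to roots of unity) only in the trivial cases; and no power of a quotient `β / a` with `β` not `a`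
is in the group generated by `q` and the Frobenius eigenvalues of `D`; and a similar condition on one
determinant for the `c` with `star c ≠ c`.  The abelian variety `D` is ARBITRARY: nothing is known on
its Mumford-Tate group.

Let `Y` be a closed irreducible subvariety of `𝒜_g` through `x` over which (after a finite cover) the
abelian scheme is isogenous to the product of an abelian scheme with the fibre `B` at `x`, to which all
endomorphisms of `B` extend, and of the constant abelian variety `D`.  (The largest such `Y` is given
by the Shimura variety of PEL type of `B`; it has positive dimension if `B` does not have complex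
multiplication.)  Then `G_(ℓ,Y) = G_(ℓ,x)`: here the groups are the identity components of the Zariski
closures of the images of the Galois groups.  So if `x` is `ℓ`-Galois special then all these `Y` are
points, and `B` has complex multiplication: in other words, a point with a non-CM factor `B` of this
kind is not `ℓ`-Galois special, as the conjecture predicts, whatever the other factor `D` is.

The proof.  All Tate forms on `H^1(B)^n` with coefficients in the multilinear forms on `H^1(D)` are
combinations of products of Tate forms of degree two on `H^1(B)` and of Tate forms on `D`; these are
Tate forms for the generic fibre of `Y`.  So each Tate form on `A_x` is a Tate form for the generic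
fibre; by the semisimplicity of the tensor powers (Faltings) the ideal of the Zariski closure for `x`
is defined by Tate forms, and it is stable under the Galois group of the function field of `Y`.
-/

namespace Pool.Agent.Results.MP_09799c_ag.IsolatedFactors

open Module Pool.Agent.Y130 Pool.Agent.Y130.MT Pool.Agent.Y130.GS Pool.Agent.H204R3.GP

/-- The groups of `x` and of the product families through `x` are the same, so that if `x` is
`ℓ`-Galois special then all product families through `x` have dimension zero. -/
theorem result {K : Type} [Field K] [CharZero K] [IsAlgClosed K]
    -- the Galois representations on `H^1(B)` and `H^1(D)` at the point `x`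
    {V : Type} [AddCommGroup V] [Module K V] [FiniteDimensional K V]
    {E : Type} [AddCommGroup E] [Module K E] [FiniteDimensional K E]
    {Γ : Type} [Group Γ] (ρ : Representation K Γ V) (σ : Representation K Γ E) (χ : Γ →* K)
    (hpol : Polarized (ρ.prod σ) χ) (hss : TensorSemisimple (ρ.prod σ))
    -- the Frobenius eigenvalues of `B` are isolated relative to `D`
    (hiso : IsolatedRelativeTo ρ σ χ)
    -- the closed irreducible subvarieties through `x`
    (𝒴 : Set (Subvariety (ρ.prod σ) χ)) :
    (∀ Y ∈ 𝒴, IsProductFamily ρ σ χ Y → monodromy Y.rep = monodromy (ρ.prod σ)) ∧
    (IsGaloisSpecial (ρ.prod σ) χ 𝒴 → ∀ Y ∈ 𝒴, IsProductFamily ρ σ χ Y → Y.dim = 0) := by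
  obtain ⟨ω, hnondeg, hω⟩ := hpol
  obtain ⟨T, _, _, _, τ, B, C, _, U, star, Δ, H, hT, hH, hU⟩ := hiso
  refine ⟨fun Y _ hY => monodromy_eq ω hnondeg hω hss hT hU hH hY, fun hx Y hY hYf => ?_⟩
  by_contra h0
  exact hx Y hY (Nat.pos_of_ne_zero h0) (monodromy_eq ω hnondeg hω hss hT hU hH hYf)

end Pool.Agent.Results.MP_09799c_ag.IsolatedFactors
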