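import Mathlib
import Pool.Agent.Y91.L.Grp

/-!
# Galois special points and abelian varieties with non-coprime signatures

Let `x` be a point of `𝒜_g` over a number field (or a finitely generated field of characteristic zero),
`A` the corresponding abelian variety, given by the period map `per : H → T` (`H = H_1(A, ℚ)`, `T` the
tangent space), and `ρ` the representation of the Galois group `Γ` on the Tate module `ℚ_ℓ ⊗ H`.

Suppose that the simple abelian subvarieties `U` of `A` over `ℂ` have the types of `GoodType`: `U` has
complex multiplication, or its dimension is one or a prime number, or `U` has a totally real maximal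
subfield of endomorphisms with relative dimension odd or two, or a maximal subfield, CM or totally
real, with coprime multiplicities `(p, q)` on the tangent space at some place, or with
multiplicities `p ≠ q` at some place, not two neighbouring binomial coefficients, such that
`p + q` does not divide `gcd(p, q) gcd(p', q')` for all indefinite `(p', q')`, or `p = q` is odd
everywhere (centre a CM field), or the endomorphism algebra is a CM field and `p = q = 2`
everywhere. Suppose that the `U` are not related by twists (`IsSeparated`). The dimensions, the
number and the multiplicities of the `U` are arbitrary.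

Let `Y` be a closed irreducible subvariety of `𝒜_g` through `x` over which the Hodge tensors of `A`
extend, that is, the Mumford-Tate groups `G_Y` and `G_x` are equal. By the theorem of Deligne
Hodge classes on abelian varieties are absolute Hodge classes, so the Hodge tensors are Tate
tensors for the Galois group of the function field of `Y` (`HodgeTensorsAreTate`).

**Theorem.** For all these `Y` the identity components `G_(ℓ,Y)` and `G_(ℓ,x)` of the Zariski closures
of the images of the Galois groups are equal. So if `x` is `ℓ`-Galois special then all these `Y` are
points. The largest `Y` of this kind is the special subvariety (of Hodge type) given by `G_x`, and it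
is a point only if `A` has complex multiplication. In other words, **a point `x` of this kind is
`ℓ`-Galois special only if it is a CM point**, as the conjecture predicts, for all `ℓ`.

Hypotheses on the Tate module, all of them known theorems: `IsTateModule` (the Weil pairing,
Faltings, the Hodge-Tate decomposition, Serre-Pink), `TensorSemisimple` (Faltings, Chevalley) and
`HasHomotheties` (Bogomolov). The structure `Subvariety` and the groups `monodromy` are from the
library of helper130, who also proved that the Zariski closure is determined by the Tate forms
(`monodromy_le`); that the Tate tensors are combinations of Hodge tensors is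
`MP_33b3f9_ag.NonCoprimeSignatures`.
-/

namespace Pool.Agent.Results.MP_09799c_ag.NonCoprimeSignatures

open Pool.Agent.Y90.St Pool.Agent.Y224.TS.St Pool.Agent.Y91.L Pool.Agent.Y130.GS TensorProduct

/-- **Galois special points.** Let `x` be a point of `𝒜_g` (`g ≥ 1`) such that the simple factors of
the abelian variety have the types of `GoodType` and are not related by twists. Then for all
closed irreducible subvarieties `Y` through `x` on which the Hodge tensors at `x` remain Tate
tensors, the groups `G_(ℓ,Y)` and `G_(ℓ,x)` are equal, and if `x` is `ℓ`-Galois special then all these
`Y` have dimension zero. -/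
theorem result {H T : Type} [AddCommGroup H] [Module ℚ H] [Nontrivial H] [FiniteDimensional ℚ H]
    [AddCommGroup T] [Module ℂ T] (per : H →+ T) (hX : IsAV per) (hs : GoodType per)
    (ht : Pool.Agent.Y4.Q.IsSeparated per) (E : H → H → ℚ) (hE : IsPolarization per E)
    (ℓ : ℕ) [Fact ℓ.Prime] [Algebra ℚ_[ℓ] ℂ] [Algebra.IsAlgebraic ℚ_[ℓ] ℂ]
    {Γ : Type} [Group Γ] (ρ : Representation ℚ_[ℓ] Γ (ℚ_[ℓ] ⊗[ℚ] H)) (χ : Γ →* ℚ_[ℓ])
    (hρ : IsTateModule per E ρ χ) (hB : HasHomotheties ρ) (hss : TensorSemisimple ρ)
    -- the closed irreducible subvarieties through `x`
    (𝒴 : Set (Subvariety ρ χ)) :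
    (∀ Y ∈ 𝒴, HodgeTensorsAreTate per Y.rep Y.mult → monodromy Y.rep = monodromy ρ) ∧
    (IsGaloisSpecial ρ χ 𝒴 → ∀ Y ∈ 𝒴, HodgeTensorsAreTate per Y.rep Y.mult → Y.dim = 0) := by
  have h : ∀ Y : Subvariety ρ χ, HodgeTensorsAreTate per Y.rep Y.mult →
      monodromy Y.rep = monodromy ρ := fun Y hY =>
    Set.Subset.antisymm (monodromy_le91 hX hs ht hE hρ hB hss hY) (monodromy_ge Y)
  refine ⟨fun Y _ hY => h Y hY, fun hx Y hY hYt => ?_⟩
  by_contra h0
  exact hx Y hY (Nat.pos_of_ne_zero h0) (h Y hYt)

end Pool.Agent.Results.MP_09799c_ag.NonCoprimeSignatures
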